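import Mathlib
import Pool.Agent.W186.AI.Spec

set_option autoImplicit false

/-!
# A polynomial identity between the zeros extends to complex `a`

For `a` in a right half plane the fixed point depends holomorphically on `a` (`S_FPH`), so does a polynomial in
the fixed points, and it vanishes on the real half line; the identity theorem does the rest.
-/

namespace Pool.Agent.W125.AI.CPX

open Complex Filter Topology Metric Set
open Pool.Agent.W186.AI

/-- a polynomial in holomorphic functions is holomorphic -/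
theorem eval_diff (m : ℕ) (P : MvPolynomial (Fin m) ℂ) (U : Set ℂ) (F : Fin m → ℂ → ℂ)
    (hF : ∀ i, DifferentiableOn ℂ (F i) U) :
    DifferentiableOn ℂ (fun a => MvPolynomial.eval (fun i => F i a) P) U := by
  induction P using MvPolynomial.induction_on with
  | C c => simp
  | add p q hp hq =>
    simp only [map_add]
    exact hp.add hq
  | mul_X p i hp =>
    simp only [map_mul, MvPolynomial.eval_X]
    exact hp.mul (hF i)

theorem isOpen_half (x0 : ℝ) : IsOpen {a : ℂ | x0 < a.re} :=
  isOpen_lt continuous_const Complex.continuous_re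

theorem zero_of_real (x0 : ℝ) (f : ℂ → ℂ) (hf : DifferentiableOn ℂ f {a : ℂ | x0 < a.re})
    (h0 : ∀ a : ℝ, x0 < a → f (a : ℂ) = 0) : ∀ a : ℂ, x0 < a.re → f a = 0 := by
  have hU : IsOpen {a : ℂ | x0 < a.re} := isOpen_half x0
  have han : AnalyticOnNhd ℂ f {a : ℂ | x0 < a.re} := hf.analyticOnNhd hU
  have hpre : IsPreconnected {a : ℂ | x0 < a.re} := (convex_halfSpace_re_gt x0).isPreconnected
  have hmem : (((x0 + 1 : ℝ) : ℂ)) ∈ {a : ℂ | x0 < a.re} := by
    simp only [mem_ofPred_eq, Complex.ofReal_re]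
    linarith
  have hfreq : ∃ᶠ z in 𝓝[≠] (((x0 + 1 : ℝ) : ℂ)), f z = 0 := by
    have ht : Tendsto (fun n : ℕ => (((x0 + 1 + 1 / ((n : ℝ) + 1) : ℝ)) : ℂ)) atTop
        (𝓝[≠] (((x0 + 1 : ℝ) : ℂ))) := by
      rw [tendsto_nhdsWithin_iff]
      constructor
      · have h1 : Tendsto (fun n : ℕ => x0 + 1 + 1 / ((n : ℝ) + 1)) atTop (𝓝 (x0 + 1 + 0)) :=
          tendsto_const_nhds.add tendsto_one_div_add_atTop_nhds_zero_nat
        rw [add_zero] at h1
        exact (Complex.continuous_ofReal.tendsto _).comp h1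
      · refine Eventually.of_forall fun n => ?_
        simp only [mem_compl_iff, mem_singleton_iff]
        intro h
        have h2 := Complex.ofReal_injective h
        have h3 : (0 : ℝ) < 1 / ((n : ℝ) + 1) := by positivity
        linarith
    refine ht.frequently (Eventually.of_forall fun n => ?_).frequently
    apply h0
    have h3 : (0 : ℝ) < 1 / ((n : ℝ) + 1) := by positivity
    linarith
  have hz := han.eqOn_zero_of_preconnected_of_frequently_eq_zero hpre hmem hfreq
  intro a ha
  exact hz ha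

theorem main (_hf : S_FPL) (hh : S_FPH) (hl : S_LAM) (hH : S_HGD) (he : S_EXT) : S_CPX := by
  intro τ hτ m n P hP
  obtain ⟨C, hC1, hCg, hCd, -⟩ := hH
  obtain ⟨hLd, hLK, -, -⟩ := hl
  -- the bound for each index
  have hy0 : ∀ k : ℕ, 0 ≤ yy k := by
    intro k
    unfold yy
    positivity
  set M : ℝ := C + ∑ i, yy (n i) with hM
  have hsum0 : 0 ≤ ∑ i, yy (n i) := Finset.sum_nonneg fun i _ => hy0 (n i)
  have hMC : C ≤ M := by linarith
  have hM1 : 1 ≤ M := by linarith
  have hMi : ∀ i, yy (n i) + C ≤ M := by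
    intro i
    have := Finset.single_le_sum (f := fun i => yy (n i)) (fun j _ => hy0 (n j)) (Finset.mem_univ i)
    linarith
  obtain ⟨x1, hx1, hx1K⟩ := hLK (2 * M)
  choose X hX10 hX using fun i => he τ hτ (n i)
  -- the abscissa
  set x0 : ℝ := x1 + ∑ i, X i with hx0
  have hXs : 0 ≤ ∑ i, X i := Finset.sum_nonneg fun i _ => by linarith [hX10 i]
  have hx01 : x1 ≤ x0 := by linarith
  have hx0i : ∀ i, X i ≤ x0 := by
    intro i
    have := Finset.single_le_sum (f := fun i => X i) (fun j _ => by linarith [hX10 j]) (Finset.mem_univ i)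
    linarith
  refine ⟨x0, by linarith, ?_⟩
  have hU : IsOpen {a : ℂ | x0 < a.re} := isOpen_half x0
  have hLn : ∀ a : ℂ, x0 < a.re → 2 * M ≤ ‖La a‖ := fun a ha => hx1K a (by linarith)
  have hL0 : ∀ a : ℂ, x0 < a.re → La a ≠ 0 := by
    intro a ha h
    have := hLn a ha
    rw [h, norm_zero] at this
    linarith
  have hwd : DifferentiableOn ℂ (fun a => (La a)⁻¹) {a : ℂ | x0 < a.re} := by
    have h1 : DifferentiableOn ℂ La {a : ℂ | x0 < a.re} := by
      refine hLd.mono ?_
      intro a ha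
      simp only [mem_ofPred_eq] at ha ⊢
      linarith
    exact h1.inv hL0
  have hwn : ∀ a ∈ {a : ℂ | x0 < a.re}, ‖(La a)⁻¹‖ * (2 * M) ≤ 1 := by
    intro a ha
    have h1 := hLn a ha
    have h2 : 0 < ‖La a‖ := by linarith
    rw [norm_inv, inv_mul_le_iff₀ h2]
    linarith
  have hFd : ∀ i, DifferentiableOn ℂ
      (fun a => fp (fun t => ((yy (n i) : ℝ) : ℂ) - Hh a t) (La a)⁻¹) {a : ℂ | x0 < a.re} := by
    intro i
    refine hh M {a : ℂ | x0 < a.re} (fun a => (La a)⁻¹) (fun a t => ((yy (n i) : ℝ) : ℂ) - Hh a t) hM1 hU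
      hwd ?_ ?_ hwn
    · have h1 : DifferentiableOn ℂ (fun q : ℂ × ℂ => Hh q.1 q.2)
          ({a : ℂ | x0 < a.re} ×ˢ ball (0 : ℂ) 1) := by
        refine hCd.mono (Set.prod_mono ?_ subset_rfl)
        intro a ha
        simp only [mem_ofPred_eq] at ha ⊢
        linarith
      exact (differentiableOn_const _).sub h1
    · intro a ha
      have ha' : 10 ≤ a.re := by
        simp only [mem_ofPred_eq] at ha
        linarith
      obtain ⟨hb, hlip⟩ := hCg a ha'
      refine ⟨fun t ht => ?_, fun t ht u hu => ?_⟩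
      · calc ‖((yy (n i) : ℝ) : ℂ) - Hh a t‖ ≤ ‖((yy (n i) : ℝ) : ℂ)‖ + ‖Hh a t‖ := norm_sub_le _ _
          _ ≤ yy (n i) + C := by
            rw [Complex.norm_real, Real.norm_eq_abs, abs_of_nonneg (hy0 (n i))]
            linarith [hb t ht]
          _ ≤ M := hMi i
      · have h1 : ((yy (n i) : ℝ) : ℂ) - Hh a t - (((yy (n i) : ℝ) : ℂ) - Hh a u) = -(Hh a t - Hh a u) := by
          ring
        rw [h1, norm_neg]
        refine (hlip t ht u hu).trans ?_
        exact mul_le_mul_of_nonneg_right hMC (norm_nonneg _)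
  refine zero_of_real x0 _ (eval_diff m P _ _ hFd) ?_
  intro a ha
  have h1 := hP a (by linarith)
  have h2 : (fun i => ((τ (n i) a : ℝ) : ℂ)) =
      fun i => fp (fun t => ((yy (n i) : ℝ) : ℂ) - Hh (a : ℂ) t) (La (a : ℂ))⁻¹ := by
    funext i
    exact hX i a (by linarith [hx0i i])
  rw [h2] at h1
  exact h1

end Pool.Agent.W125.AI.CPX
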